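import Pool.Agent.E8helper80.FL.Fin
import Pool.Agent.E8helper80.MP.Nat0

/-!
# Joint correlations of the von Mangoldt and Liouville functions: fixed Liouville shifts, moving von Mangoldt shifts

All the shifts of the Liouville function are fixed, and all the shifts of the von Mangoldt function move (each one in its
own family of integers, for instance all the integers up to `N`, or the values of a polynomial). We reduce the statement
of Q1 for almost all such shifts to the residue classes, prove that it is equivalent to Chowla's conjecture, and prove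
it unconditionally at almost all scales for two shifts of the Liouville function, and a uniform gap for any number
of shifts of it.

From Mathlib: `ArithmeticFunction.vonMangoldt n` is `Λ(n)`, `ArithmeticFunction.cardFactors n` is `Ω(n)`.
-/

set_option autoImplicit false

namespace Pool.Agent.Results.MP_e6fa8b_nt.FixedLiouvilleShiftsH80

open Finset

/-- The Liouville function. -/
noncomputable def lam (n : ℕ) : ℝ := (-1) ^ ArithmeticFunction.cardFactors n

/-- The product of the values of the Liouville function at the shifts in `L`. -/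
noncomputable def lamProd (L : Finset ℕ) (n : ℕ) : ℝ := ∏ l ∈ L, lam (n + l)

/-- The additive energy of order `p` of the family `s 1, …, s x`: the number of the solutions of
`s (m 1) + … + s (m p) = s (m' 1) + … + s (m' p)` with all `m i`, `m' i` in `{1, …, x}`. -/
def energy (p x : ℕ) (s : ℕ → ℕ) : ℕ :=
  (((Fintype.piFinset fun _ : Fin p => Icc 1 x) ×ˢ (Fintype.piFinset fun _ : Fin p => Icc 1 x)).filter
    (fun q => ∑ i, s (q.1 i) = ∑ i, s (q.2 i))).card

/-- The family `s 1, …, s x` of shifts is admissible at the scale `N`: they are at most `B N` and the additive energy of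
order `p` is at most `C x ^ (2 p) / N`. This holds with suitable constants for all the positive integers up to `N` (with
`p = 1`), for any positive proportion of them, and, by the Weyl and Hua method, for the values up to `B N` of a fixed
non-constant integer polynomial with positive leading coefficient. -/
def Admissible (p B : ℕ) (C : ℝ) (N x : ℕ) (s : ℕ → ℕ) : Prop :=
  1 ≤ x ∧ (∀ m, 1 ≤ m → m ≤ x → s m ≤ B * N) ∧ (energy p x s : ℝ) * N ≤ C * (x : ℝ) ^ (2 * p)

/-- The product of the values of the von Mangoldt function at the shifts `s i (m i)`. -/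
noncomputable def PL {k : ℕ} (s : Fin k → ℕ → ℕ) (m : Fin k → ℕ) (n : ℕ) : ℝ :=
  ∏ i, ArithmeticFunction.vonMangoldt (n + s i (m i))

open Classical in
/-- Let `Γ N` be a set of functions for every scale `N`, and `0 ≤ κ ≤ 1`. For any number `k` of admissible families of
shifts, all but a proportion `ε` of the shifts satisfy, at large scales `N`,
`|∑ n ≤ X, f(n) ∏ i, Λ(n + s i (m i))| ≤ (1 - κ) ∑ n ≤ X, ∏ i, Λ(n + s i (m i)) + ε N` for all `X ≤ N`,
uniformly in `f ∈ Γ N` and in the families. (For `κ = 1` the right-hand side is `ε N`.) -/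
def AlmostAllShifts (κ : ℝ) (Γ : ℕ → Set (ℕ → ℂ)) : Prop :=
  ∀ (k p B : ℕ) (C ε : ℝ), 0 ≤ C → 0 < ε → ∃ N₀ : ℕ, ∀ N : ℕ, N₀ ≤ N → ∀ f ∈ Γ N,
    ∀ (x : Fin k → ℕ) (s : Fin k → ℕ → ℕ), (∀ i, Admissible p B C N (x i) (s i)) →
      (((Fintype.piFinset fun i => Icc 1 (x i)).filter (fun m : Fin k → ℕ => ∃ X : ℕ, X ≤ N ∧
        (1 - κ) * ∑ n ∈ Icc 1 X, PL s m n + ε * N < ‖∑ n ∈ Icc 1 X, f n * (PL s m n : ℂ)‖)).card : ℝ) ≤
        ε * ∏ i, (x i : ℝ)

open Classical in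
/-- The same for a single shift `h ≤ N`: `|∑ n ≤ X, f(n) Λ(n + h)| ≤ ε N` for all `X ≤ N`, for all but `ε N` of the
`h ≤ N`. -/
def AlmostAllOneShift (Γ : ℕ → Set (ℕ → ℂ)) : Prop :=
  ∀ ε : ℝ, 0 < ε → ∃ N₀ : ℕ, ∀ N : ℕ, N₀ ≤ N → ∀ f ∈ Γ N,
    (((Icc 1 N).filter (fun h : ℕ => ∃ X : ℕ, X ≤ N ∧
      ε * N < ‖∑ n ∈ Icc 1 X, f n * (ArithmeticFunction.vonMangoldt (n + h) : ℂ)‖)).card : ℝ) ≤ ε * N

/-- The functions in `Γ N` have mean value zero in all the residue classes to squarefree moduli, uniformly. -/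
def MeanZeroInClasses (Γ : ℕ → Set (ℕ → ℂ)) : Prop :=
  ∀ q : ℕ, Squarefree q → ∀ a : ℕ, ∀ ε : ℝ, 0 < ε → ∃ N₀ : ℕ, ∀ N : ℕ, N₀ ≤ N → ∀ f ∈ Γ N, ∀ X : ℕ, X ≤ N →
    ‖∑ n ∈ (Icc 1 X).filter (fun n => n ≡ a [MOD q]), f n‖ ≤ ε * N

/-- Chowla's conjecture (the case `k = 0`, `ℓ ≥ 1` of Q1). -/
def Chowla : Prop := ∀ L : Finset ℕ, L.Nonempty → ∀ ε : ℝ, 0 < ε → ∃ N₀ : ℕ, ∀ N : ℕ, N₀ ≤ N →
  |∑ n ∈ Icc 1 N, lamProd L n| ≤ ε * N

open Classical in
/-- The set `𝓔` has logarithmic density zero. -/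
def LogDensityZero (𝓔 : Set ℕ) : Prop :=
  Filter.Tendsto (fun X : ℕ => (∑ n ∈ Icc 1 X, if n ∈ 𝓔 then (1 : ℝ) / n else 0) / Real.log X) Filter.atTop (nhds 0)

/-- `g` is a multiplicative function with values in the closed unit disc. -/
def BoundedMult (g : ℕ → ℂ) : Prop :=
  (∀ n, 1 ≤ n → ‖g n‖ ≤ 1) ∧ ∀ m n, 1 ≤ m → 1 ≤ n → Nat.Coprime m n → g (m * n) = g m * g n

/-- The coloured prime signature of `n`: every prime `p` has a colour `χ p`, and `sig χ n` is the multiset of the pairs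
(colour of `p`, exponent of `p` in `n`) over the primes `p` dividing `n`. -/
def sig {k : ℕ} (χ : ℕ → Fin k) (n : ℕ) : Multiset (Fin k × ℕ) :=
  n.primeFactors.val.map (fun p => (χ p, n.factorization p))

section
open Pool.Agent.E8helper80.FL

lemma energy_cast (p x : ℕ) (s : ℕ → ℕ) : Pool.Agent.H373R2.T7.energy p x (fun m => (s m : ℤ)) = energy p x s := by
  unfold Pool.Agent.H373R2.T7.energy energy
  congr 1
  apply filter_congr
  intro q _
  have e : (∑ i, (s (q.1 i) : ℤ) = ∑ i, (s (q.2 i) : ℤ)) ↔ ∑ i, s (q.1 i) = ∑ i, s (q.2 i) := by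
    constructor
    · intro h
      exact_mod_cast h
    · intro h
      exact_mod_cast h
  exact e

lemma fam_of {p B : ℕ} {C : ℝ} {N x : ℕ} {s : ℕ → ℕ} (h : Admissible p B C N x s) : Fam p B C N x (fun m => (s m : ℤ)) := by
  obtain ⟨h1, h2, h3⟩ := h
  refine ⟨h1, fun m hm => ?_, ?_⟩
  · rw [mem_Icc] at hm
    rw [Nat.abs_cast]
    exact_mod_cast h2 m hm.1 hm.2
  · rw [energy_cast]
    exact h3

lemma classes_iff (q a X : ℕ) (f : ℕ → ℂ) : ∑ n ∈ (Icc 1 X).filter (fun n => n ≡ a [MOD q]), f n =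
    ∑ n ∈ (Icc 1 X).filter (fun n => n % q = a % q), f n := rfl

/-- the main implication -/
lemma almost_of (κ : ℝ) (hκ0 : 0 ≤ κ) (hκ : κ ≤ 1) (Γ Γ' : ℕ → Set (ℕ → ℂ)) (hΓ : ∀ N, ∀ f ∈ Γ N, ∀ n, ‖f n‖ ≤ 1)
    (hΓ' : ∀ N, ∀ f' ∈ Γ' N, ∃ f ∈ Γ N, ∀ n, 1 ≤ n → f' n = f n)
    (h : ∀ q : ℕ, Squarefree q → ∀ a : ℕ, a < q → ∀ δ : ℝ, 0 < δ → ∃ N₀ : ℕ, ∀ N : ℕ, N₀ ≤ N → ∀ f ∈ Γ N, ∀ X : ℕ, X ≤ N →
      ‖∑ n ∈ (Icc 1 X).filter (fun n => n % q = a), f n‖ ≤
        (1 - κ) * (((Icc 1 X).filter (fun n => n % q = a)).card : ℝ) + δ * N) : AlmostAllShifts κ Γ' := by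
  classical
  intro k p B C ε hC hε
  obtain ⟨N₀, h1⟩ := joint Γ hΓ κ hκ0 hκ h k p B C hC ε hε
  refine ⟨N₀, fun N hN f' hf' x s hs => ?_⟩
  obtain ⟨f, hf, hff⟩ := hΓ' N f' hf'
  refine le_trans (le_of_eq ?_) (h1 N hN f hf x s (fun i => fam_of (hs i)))
  congr 2
  apply filter_congr
  intro m _
  have e : ∀ X : ℕ, ∑ n ∈ Icc 1 X, f' n * ((PL s m n : ℝ) : ℂ) = tw f s m X := by
    intro X
    unfold tw PL
    apply sum_congr rfl
    intro n hn
    rw [hff n (mem_Icc.1 hn).1]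
  simp only [e]
  rfl

theorem criterion (Γ : ℕ → Set (ℕ → ℂ)) (hΓ : ∀ N, ∀ f ∈ Γ N, ∀ n, ‖f n‖ ≤ 1) :
    List.TFAE [MeanZeroInClasses Γ, AlmostAllShifts 1 Γ, AlmostAllOneShift Γ] := by
  classical
  tfae_have 1 → 2 := by
    intro h
    refine almost_of 1 zero_le_one le_rfl Γ Γ hΓ (fun N f hf => ⟨f, hf, fun _ _ => rfl⟩) (fun q hq a ha δ hδ => ?_)
    obtain ⟨N₀, h1⟩ := h q hq a δ hδ
    refine ⟨N₀, fun N hN f hf X hX => ?_⟩
    have h2 := h1 N hN f hf X hX
    rw [classes_iff, Nat.mod_eq_of_lt ha] at h2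
    rw [sub_self, zero_mul, zero_add]
    exact h2
  tfae_have 2 → 3 := by
    intro h ε hε
    obtain ⟨N₀, h1⟩ := h 1 1 1 1 ε zero_le_one hε
    refine ⟨N₀ + 1, fun N hN f hf => ?_⟩
    have hE : energy 1 N (fun m => m) ≤ N := by
      have h2 := Pool.Agent.E8helper80.MP.energy_one N 0
      rw [← energy_cast]
      simpa using h2
    have h2 := h1 N (by omega) f hf (fun _ => N) (fun _ m => m) (fun _ => ⟨by omega, fun m _ hm => by
      beta_reduce
      omega, by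
      have h3 : (energy 1 N (fun m => m) : ℝ) ≤ N := by exact_mod_cast hE
      have h4 : (0 : ℝ) ≤ N := Nat.cast_nonneg _
      calc (energy 1 N (fun m => m) : ℝ) * N ≤ N * N := mul_le_mul_of_nonneg_right h3 h4
        _ = 1 * (N : ℝ) ^ (2 * 1) := by ring⟩)
    rw [prod_const, card_univ, Fintype.card_fin, pow_one] at h2
    refine le_trans ?_ h2
    apply Nat.cast_le.2
    apply card_le_card_of_injOn (fun h => (fun _ => h : Fin 1 → ℕ))
    · intro h' hh'
      rw [mem_coe, mem_filter] at hh'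
      obtain ⟨ha, X, hX, hlt⟩ := hh'
      rw [mem_coe, mem_filter, Fintype.mem_piFinset]
      refine ⟨fun _ => ha, X, hX, ?_⟩
      rw [sub_self, zero_mul, zero_add]
      refine lt_of_lt_of_eq hlt ?_
      congr 1
      apply sum_congr rfl
      intro n _
      unfold PL
      rw [Fin.prod_univ_one]
    · intro a _ b _ hab
      exact congrFun hab 0
  tfae_have 3 → 1 := by
    intro h q hq a ε hε
    obtain ⟨N₀, h1⟩ := crit2 Γ hΓ h q hq (a % q) ε hε
    refine ⟨N₀, fun N hN f hf X hX => ?_⟩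
    rw [classes_iff]
    exact h1 N hN f hf X hX
  tfae_finish

lemma lamProd_norm (L : Finset ℕ) (n : ℕ) : ‖((lamProd L n : ℝ) : ℂ)‖ = 1 := by
  rw [Complex.norm_real, Real.norm_eq_abs]
  exact pl_abs L n

theorem chowla_iff : List.TFAE [Chowla, ∀ L : Finset ℕ, L.Nonempty → AlmostAllShifts 1 (fun _ => {fun n => (lamProd L n : ℂ)}),
    ∀ L : Finset ℕ, L.Nonempty → AlmostAllOneShift (fun _ => {fun n => (lamProd L n : ℂ)})] := by
  have hb : ∀ L : Finset ℕ, ∀ N : ℕ, ∀ f ∈ (fun _ : ℕ => ({fun n => (lamProd L n : ℂ)} : Set (ℕ → ℂ))) N, ∀ n, ‖f n‖ ≤ 1 := by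
    rintro L N f hf n
    rw [Set.mem_singleton_iff.1 hf]
    exact (lamProd_norm L n).le
  tfae_have 1 → 2 := by
    intro h L hL
    refine ((criterion _ (hb L)).out 0 1).1 ?_
    intro q hq a ε hε
    obtain ⟨N₀, h1⟩ := chow_ap h L hL q (Nat.pos_of_ne_zero hq.ne_zero) (a % q) ε hε
    refine ⟨N₀, fun N hN f hf X hX => ?_⟩
    rw [Set.mem_singleton_iff.1 hf, classes_iff, ← Complex.ofReal_sum, Complex.norm_real]
    exact h1 N hN X hX
  tfae_have 2 → 3 := fun h L hL => ((criterion _ (hb L)).out 1 2).1 (h L hL)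
  tfae_have 3 → 1 := by
    intro h L hL ε hε
    have h0 : MeanZeroInClasses (fun _ => {fun n => (lamProd L n : ℂ)}) := ((criterion _ (hb L)).out 2 0).1 (h L hL)
    obtain ⟨N₀, h1⟩ := h0 1 squarefree_one 0 ε hε
    refine ⟨N₀, fun N hN => ?_⟩
    have h2 := h1 N hN _ (Set.mem_singleton _) N le_rfl
    rw [filter_true_of_mem (fun n _ => Nat.modEq_one), ← Complex.ofReal_sum, Complex.norm_real] at h2
    exact h2
  tfae_finish

theorem pairs {k : ℕ} (χ : ℕ → Fin k) (F : Multiset (Fin k × ℕ) → ℂ) (hF : ∀ s, ‖F s‖ ≤ 1) (g : ℕ → ℂ)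
    (hg : BoundedMult g) : ∃ 𝓔 : Set ℕ, LogDensityZero 𝓔 ∧ ∀ a c : ℕ, a ≠ c →
      AlmostAllShifts 1 (fun N => {f | N ∉ 𝓔 ∧ ∃ β : ℝ, f = fun n => (lam (n + a) : ℂ) * F (sig χ (n + c)) * g (n + c) *
        Complex.exp (2 * Real.pi * Complex.I * (β * n))}) := by
  obtain ⟨E, hE, h1⟩ := pair_classes χ F hF g hg.1 hg.2
  refine ⟨E, hE, fun a c hac => ?_⟩
  refine almost_of 1 zero_le_one le_rfl (fun N => {f | N ∉ E ∧ ∃ β : ℝ, f = fun n =>
    Pool.Agent.E8helper80.MP.pr χ F g a c n * Pool.Agent.H807R2.Dav.ee ((n : ℝ) * β)}) _ ?_ ?_ ?_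
  · rintro N f ⟨_, β, rfl⟩ n
    rw [norm_mul, Pool.Agent.H807R2.Dav.norm_ee, mul_one]
    exact Pool.Agent.E8helper80.MP.pr_norm χ F hF g hg.1 a c n
  · rintro N f ⟨hN, β, rfl⟩
    refine ⟨_, ⟨hN, β, rfl⟩, fun n hn => ?_⟩
    unfold Pool.Agent.E8helper80.MP.pr Pool.Agent.H807R2.Dav.ee
    rw [if_pos hn]
    unfold lam sig Pool.Agent.Y842.QY.csg
    push_cast
    rw [mul_comm (n : ℂ) (β : ℂ)]
    ring
  · intro q _ a' ha' δ hδ
    obtain ⟨N₀, h2⟩ := h1 a c hac q a' ha' δ hδ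
    refine ⟨N₀, ?_⟩
    rintro N hN f ⟨hNE, β, rfl⟩ X hX
    rw [sub_self, zero_mul, zero_add]
    exact h2 N hN hNE β X hX

theorem gap : ∃ c : ℕ → ℝ, (∀ l, 0 < c l ∧ c l ≤ 1) ∧ ∀ (l : ℕ) (g : Fin l → ℕ → ℂ), (∀ i, BoundedMult (g i)) → ∀ j,
    (∀ n, 1 ≤ n → g j n = (lam n : ℂ)) → ∃ 𝓔 : Set ℕ, LogDensityZero 𝓔 ∧ ∀ h : Fin l → ℕ, Function.Injective h →
      AlmostAllShifts (c l) (fun N => {f | N ∉ 𝓔 ∧ f = fun n => ∏ i, g i (n + h i)}) := by
  classical
  obtain ⟨c, hc, h1⟩ := gap_ap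
  refine ⟨c, hc, fun l g hg j hj => ?_⟩
  obtain ⟨g', hg'⟩ : ∃ g' : Fin l → ℕ → ℂ, g' = fun i n => if i = j then lioC n else if n = 0 then 0 else g i n := ⟨_, rfl⟩
  have hgg : ∀ i n, 1 ≤ n → g' i n = g i n := by
    intro i n hn
    rw [hg']
    simp only
    split_ifs with h2 h3
    · rw [h2, hj n hn]
      unfold lioC lam
      push_cast
      rfl
    · omega
    · rfl
  have hBM : ∀ i, Pool.Agent.Y958.E.BM (g' i) := by
    intro i
    constructor
    · intro n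
      rcases Nat.eq_zero_or_pos n with h0 | h0
      · rw [hg']
        simp only
        split_ifs with h2
        · exact (lioC_norm n).le
        · rw [norm_zero]; exact zero_le_one
      · rw [hgg i n h0]
        exact (hg i).1 n h0
    · intro m n hm hn hmn
      rw [hgg i m hm, hgg i n hn, hgg i (m * n) (Nat.mul_pos hm hn)]
      exact (hg i).2 m n hm hn hmn
  obtain ⟨E, hE, h2⟩ := h1 l g' hBM j (by
    rw [hg']
    funext n
    simp only [if_true])
  refine ⟨E, hE, fun h hinj => ?_⟩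
  refine almost_of (c l) (hc l).1.le (hc l).2 (fun N => {f | N ∉ E ∧ f = fun n => ∏ i, g' i (n + h i)}) _ ?_ ?_ ?_
  · rintro N f ⟨_, rfl⟩ n
    rw [norm_prod]
    exact prod_le_one (fun _ _ => norm_nonneg _) fun i _ => (hBM i).1 _
  · rintro N f ⟨hN, rfl⟩
    refine ⟨_, ⟨hN, rfl⟩, fun n hn => ?_⟩
    apply prod_congr rfl
    intro i _
    rw [hgg i _ (by omega)]
  · intro q hq a ha δ hδ
    obtain ⟨N₀, h3⟩ := h2 h hinj q (Nat.pos_of_ne_zero hq.ne_zero) a ha δ hδ
    refine ⟨N₀, ?_⟩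
    rintro N hN f ⟨hNE, rfl⟩ X hX
    exact h3 N hN hNE X hX

end

/-- (1) Let `Γ N` be arbitrary sets of functions bounded by `1`. The sums `∑ n ≤ X, f(n) ∏ Λ(n + s i (m i))`, `f ∈ Γ N`,
`X ≤ N`, are small for almost all shifts in admissible families if and only if they are small for a single shift of
`Λ`, for almost all shifts `h ≤ N`, and if and only if `f` has mean value zero in all the residue classes to
squarefree moduli.

(2) Chowla's conjecture is equivalent to the statement of Q1 with arbitrary fixed shifts of the Liouville function and any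
number of moving shifts of the von Mangoldt function, for almost all of these, and it is also equivalent to the same
statement for one shift of the von Mangoldt function.

(3) Two fixed shifts of the Liouville function, unconditionally: let `g` be a bounded multiplicative function, for
example `λ`, and `F` a bounded function of coloured prime signatures, for example `1`. There is a set `𝓔` of
logarithmic density zero such that, for `N ∉ 𝓔` and for all `a ≠ c` and real `β`, the sums of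
`λ(n + a) F(sig(n + c)) g(n + c) e(β n) ∏ Λ(n + s i (m i))` over `n ≤ X`, `X ≤ N`, are `o(N)` for almost all shifts in
admissible families, uniformly in `β`.

(4) Any number `ℓ` of fixed shifts, unconditionally: with a constant `c ℓ > 0` depending on `ℓ` only, if `g₁, …, g_ℓ` are
bounded multiplicative functions, one of which is `λ`, then there is a set `𝓔` of logarithmic density zero such that,
for `N ∉ 𝓔` and all distinct `h₁, …, h_ℓ`,
`|∑ n ≤ X, ∏ g_i(n + h_i) ∏ Λ(n + s i (m i))| ≤ (1 - c ℓ) ∑ n ≤ X, ∏ Λ(n + s i (m i)) + o(N)`, `X ≤ N`, for almost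
all shifts in admissible families. -/
theorem result :
    (∀ Γ : ℕ → Set (ℕ → ℂ), (∀ N, ∀ f ∈ Γ N, ∀ n, ‖f n‖ ≤ 1) →
      List.TFAE [MeanZeroInClasses Γ, AlmostAllShifts 1 Γ, AlmostAllOneShift Γ]) ∧
    List.TFAE [Chowla, ∀ L : Finset ℕ, L.Nonempty → AlmostAllShifts 1 (fun _ => {fun n => (lamProd L n : ℂ)}),
      ∀ L : Finset ℕ, L.Nonempty → AlmostAllOneShift (fun _ => {fun n => (lamProd L n : ℂ)})] ∧
    (∀ (k : ℕ) (χ : ℕ → Fin k) (F : Multiset (Fin k × ℕ) → ℂ), (∀ s, ‖F s‖ ≤ 1) → ∀ g : ℕ → ℂ, BoundedMult g →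
      ∃ 𝓔 : Set ℕ, LogDensityZero 𝓔 ∧ ∀ a c : ℕ, a ≠ c →
        AlmostAllShifts 1 (fun N => {f | N ∉ 𝓔 ∧ ∃ β : ℝ, f = fun n => (lam (n + a) : ℂ) * F (sig χ (n + c)) * g (n + c) *
          Complex.exp (2 * Real.pi * Complex.I * (β * n))})) ∧
    (∃ c : ℕ → ℝ, (∀ l, 0 < c l ∧ c l ≤ 1) ∧ ∀ (l : ℕ) (g : Fin l → ℕ → ℂ), (∀ i, BoundedMult (g i)) → ∀ j,
      (∀ n, 1 ≤ n → g j n = (lam n : ℂ)) → ∃ 𝓔 : Set ℕ, LogDensityZero 𝓔 ∧ ∀ h : Fin l → ℕ, Function.Injective h →
        AlmostAllShifts (c l) (fun N => {f | N ∉ 𝓔 ∧ f = fun n => ∏ i, g i (n + h i)})) :=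
  ⟨criterion, chowla_iff, fun _ χ F hF g hg => pairs χ F hF g hg, gap⟩

end Pool.Agent.Results.MP_e6fa8b_nt.FixedLiouvilleShiftsH80
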