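import Pool.Agent.E8helper80.MP.NatA
import Pool.Agent.E8helper80.MP.Pair

/-!
# Joint correlations of the von Mangoldt and Liouville functions with a moving pair of Liouville factors

No case of Q1 with `k + ℓ ≥ 2` is known. The theorem below treats the sums of Q1 with arbitrary fixed shifts for the
von Mangoldt function, arbitrary fixed shifts for the Liouville function, and two further Liouville factors
`λ (n + t) λ (n + t + d)` at a fixed distance `d ≥ 1`: at almost all scales `N` (in the sense of logarithmic density)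
the sum has the conjectured size `o(N)` for almost all `t ≤ N`. This special case is spelled out in `fixed_shifts`; the
theorem `result` is more general.

From Mathlib: `ArithmeticFunction.vonMangoldt n` is `Λ(n)`, `ArithmeticFunction.cardFactors n` is `Ω(n)`.
-/

set_option autoImplicit false

namespace Pool.Agent.Results.MP_e6fa8b_nt.MovingLiouvillePairH80

open Finset

/-- The Liouville function. -/
noncomputable def lam (n : ℕ) : ℝ := (-1) ^ ArithmeticFunction.cardFactors n

open Classical in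
/-- The set `𝓔` has logarithmic density zero. -/
def LogDensityZero (𝓔 : Set ℕ) : Prop :=
  Filter.Tendsto (fun X : ℕ => (∑ n ∈ Icc 1 X, if n ∈ 𝓔 then (1 : ℝ) / n else 0) / Real.log X) Filter.atTop (nhds 0)

/-- `g` is a multiplicative function with values in the closed unit disc. -/
def BoundedMult (g : ℕ → ℂ) : Prop :=
  (∀ n, 1 ≤ n → ‖g n‖ ≤ 1) ∧ ∀ m n, 1 ≤ m → 1 ≤ n → Nat.Coprime m n → g (m * n) = g m * g n

/-- The coloured prime signature of `n`: every prime `p` has a colour `χ p`, and `sig χ n` is the multiset of the pairs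
(colour of `p`, exponent of `p` in `n`) over the primes `p` dividing `n`. (With a single colour it is the
multiset of the exponents; a bounded function of it is for example any bounded function of `Ω(n)`, or of the number
of divisors of `n`.) -/
def sig {k : ℕ} (χ : ℕ → Fin k) (n : ℕ) : Multiset (Fin k × ℕ) :=
  n.primeFactors.val.map (fun p => (χ p, n.factorization p))

open Classical in
/-- Let `g` be a bounded multiplicative function (for example `λ`) and `F` a bounded function of coloured prime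
signatures (for example `F = 1`). There is a set `𝓔` of scales of logarithmic density zero with the following property.
Let `a ≠ c`, `f ≥ 0`, `s ≥ 0`, `D` and `ε > 0` be fixed. Let `N ∉ 𝓔` be large, let `h₁, …, h_f ≤ N` be distinct with
differences at most `D` (for example any fixed distinct numbers), let `B ≤ N`, and let `b x n` be arbitrary coefficients
bounded by `1` (for example the product of the `λ(n + h'_j)` for arbitrary shifts `h'_j`). Then all but
`ε N ^ (s + 1)` of the tuples `(x₁, …, x_s, t)` of positive integers `≤ N` satisfy, for all `X ≤ N`,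
`|∑ n ≤ X, b x n ∏ i, Λ(n + h i) ∏ j, Λ(n + x j) λ(n + t + B + a) F(sig (n + t + B + c)) g(n + t + B + c)| ≤ ε N`.

In particular: for fixed distinct `h₁, …, h_f`, fixed `h'₁, …, h'_r` and a fixed `d ≥ 1`, and for `N ∉ 𝓔` tending to
infinity, the sum of Q1 with the shifts `h₁, …, h_f` for `Λ` and `h'₁, …, h'_r, t, t + d` for `λ` is `o(N)` for almost
all `t ≤ N` (see `fixed_shifts`). -/
theorem result {k : ℕ} (χ : ℕ → Fin k) (F : Multiset (Fin k × ℕ) → ℂ) (hF : ∀ s, ‖F s‖ ≤ 1) (g : ℕ → ℂ)
    (hg : BoundedMult g) : ∃ 𝓔 : Set ℕ, LogDensityZero 𝓔 ∧ ∀ a c : ℕ, a ≠ c → ∀ f s D : ℕ,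
      ∀ ε : ℝ, 0 < ε → ∃ N₀ : ℕ, ∀ N : ℕ, N₀ ≤ N → N ∉ 𝓔 → ∀ h : Fin f → ℕ, Function.Injective h →
        (∀ i, h i ≤ N) → (∀ i l, h i ≤ h l + D) → ∀ B : ℕ, B ≤ N →
        ∀ b : (Fin s → ℕ) → ℕ → ℂ, (∀ x n, ‖b x n‖ ≤ 1) →
        ((((Fintype.piFinset fun _ : Fin s => Icc 1 N) ×ˢ (Icc 1 N)).filter (fun x : (Fin s → ℕ) × ℕ =>
          ∃ X : ℕ, X ≤ N ∧ ε * N < ‖∑ n ∈ Icc 1 X, b x.1 n *
            (((∏ i, ArithmeticFunction.vonMangoldt (n + h i)) *
              (∏ j, ArithmeticFunction.vonMangoldt (n + x.1 j)) * lam (n + x.2 + B + a) : ℝ) : ℂ) *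
            (F (sig χ (n + x.2 + B + c)) * g (n + x.2 + B + c))‖)).card : ℝ) ≤
          ε * (N : ℝ) ^ (s + 1) := by
  obtain ⟨E, hE, h1⟩ := Pool.Agent.E8helper80.MP.pair_scales χ F hF g hg.1 hg.2
  refine ⟨E, hE, fun a c hac f s D ε hε => ?_⟩
  obtain ⟨N₀, h2⟩ := Pool.Agent.E8helper80.MP.natA (Pool.Agent.E8helper80.MP.pr χ F g a c)
    (Pool.Agent.E8helper80.MP.pr_norm χ F hF g hg.1 a c) Eᶜ (fun ε hε => by
      obtain ⟨N₀, h3⟩ := h1 a c hac ε hε
      exact ⟨N₀, fun N hN hNE => h3 N hN hNE⟩) f s D ε hε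
  refine ⟨N₀, fun N hN hNE h hinj hhN hhD B hB b hb => ?_⟩
  refine le_trans (le_of_eq ?_) (h2 N hN hNE h hinj hhN hhD B hB b hb)
  congr 2
  apply filter_congr
  intro x _
  have h3 : ∀ X : ℕ, ∑ n ∈ Icc 1 X, b x.1 n *
            (((∏ i, ArithmeticFunction.vonMangoldt (n + h i)) *
              (∏ j, ArithmeticFunction.vonMangoldt (n + x.1 j)) * lam (n + x.2 + B + a) : ℝ) : ℂ) *
            (F (sig χ (n + x.2 + B + c)) * g (n + x.2 + B + c)) =
      ∑ n ∈ Icc 1 X, b x.1 n *
          (((∏ i, ArithmeticFunction.vonMangoldt (n + h i)) *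
            ∏ j, ArithmeticFunction.vonMangoldt (n + x.1 j) : ℝ) : ℂ) *
          Pool.Agent.E8helper80.MP.pr χ F g a c (n + x.2 + B) := by
    intro X
    apply sum_congr rfl
    intro n hn
    rw [mem_Icc] at hn
    unfold Pool.Agent.E8helper80.MP.pr
    rw [if_pos (by omega)]
    unfold lam sig Pool.Agent.Y842.QY.csg
    push_cast
    ring
  simp only [h3]

/-- The sum of Q1: von Mangoldt's function at the shifts in `H`, Liouville's function at the shifts in `L`. -/
noncomputable def Q (H L : Finset ℕ) (X : ℕ) : ℝ :=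
  ∑ n ∈ Icc 1 X, (∏ h ∈ H, ArithmeticFunction.vonMangoldt (n + h)) * ∏ l ∈ L, lam (n + l)

/-- the Liouville function with complex values -/
noncomputable def lamC (n : ℕ) : ℂ := (-1) ^ ArithmeticFunction.cardFactors n

lemma lamC_mult : BoundedMult lamC := by
  constructor
  · intro n _
    unfold lamC
    rw [norm_pow, norm_neg, norm_one, one_pow]
  · intro m n hm hn _
    unfold lamC
    rw [ArithmeticFunction.cardFactors_mul (by omega) (by omega), pow_add]

lemma lam_abs (n : ℕ) : |lam n| = 1 := by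
  unfold lam
  rw [abs_pow, abs_neg, abs_one, one_pow]

open Classical in
/-- The special case of fixed shifts: for all but `ε N` of the integers `t ≤ N` the sum of Q1 with the fixed shifts
`h ∈ H` of `Λ` and with the shifts `l ∈ L ∪ {t, t + d}` of `λ` is at most `ε N` for all `X ≤ N`. -/
theorem fixed_shifts : ∃ 𝓔 : Set ℕ, LogDensityZero 𝓔 ∧ ∀ (H L : Finset ℕ) (d : ℕ), 1 ≤ d → ∀ ε : ℝ, 0 < ε →
    ∃ N₀ : ℕ, ∀ N : ℕ, N₀ ≤ N → N ∉ 𝓔 →
      (((Icc 1 N).filter (fun t : ℕ => ∃ X : ℕ, X ≤ N ∧ ε * N < |Q H (L ∪ {t, t + d}) X|)).card : ℝ) ≤ ε * N := by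
  obtain ⟨E, hE, h1⟩ := result (fun _ => (0 : Fin 1)) (fun _ => 1) (fun _ => by simp) lamC lamC_mult
  refine ⟨E, hE, fun H L d hd ε hε => ?_⟩
  obtain ⟨N₀, h2⟩ := h1 0 d (by omega) H.card 0 (H.sup id) (ε / 2) (by positivity)
  obtain ⟨N₁, h3⟩ := exists_nat_ge (2 * (2 * (L.card : ℝ)) / ε)
  refine ⟨N₀ + N₁ + H.sup id + 1, fun N hN hNE => ?_⟩
  have hN0 : (0 : ℝ) < N := by exact_mod_cast (by omega : 0 < N)
  have hle : ∀ i : Fin H.card, ((H.equivFin.symm i : H) : ℕ) ≤ H.sup id := fun i =>
    le_sup (f := id) (H.equivFin.symm i).2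
  have h4 := h2 N (by omega) hNE (fun i => ((H.equivFin.symm i : H) : ℕ)) (by
    intro i j hij
    exact H.equivFin.symm.injective (Subtype.ext hij)) (fun i => (hle i).trans (by omega))
    (fun i l => (hle i).trans (by omega)) 0 (Nat.zero_le _) (fun _ n => ((∏ l ∈ L, lam (n + l) : ℝ) : ℂ))
    (fun _ n => by
      rw [Complex.norm_real, Real.norm_eq_abs, abs_prod]
      simp only [lam_abs, prod_const_one, le_refl])
  rw [zero_add, pow_one] at h4
  obtain ⟨T, hT⟩ : ∃ T, T = ((((Fintype.piFinset fun _ : Fin 0 => Icc 1 N) ×ˢ (Icc 1 N)).filter (fun x : (Fin 0 → ℕ) × ℕ =>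
          ∃ X : ℕ, X ≤ N ∧ ε / 2 * N < ‖∑ n ∈ Icc 1 X, ((∏ l ∈ L, lam (n + l) : ℝ) : ℂ) *
            (((∏ i : Fin H.card, ArithmeticFunction.vonMangoldt (n + ((H.equivFin.symm i : H) : ℕ))) *
              (∏ j, ArithmeticFunction.vonMangoldt (n + x.1 j)) * lam (n + x.2 + 0 + 0) : ℝ) : ℂ) *
            ((1 : ℂ) * lamC (n + x.2 + 0 + d))‖))) := ⟨_, rfl⟩
  have h4' : (T.card : ℝ) ≤ ε / 2 * N := by rw [hT]; exact h4
  have hsub : (Icc 1 N).filter (fun t : ℕ => ∃ X : ℕ, X ≤ N ∧ ε * N < |Q H (L ∪ {t, t + d}) X|) ⊆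
      T.image (fun x => x.2) ∪ (L ∪ L.image (fun l => l - d)) := by
    intro t ht
    rw [mem_filter] at ht
    obtain ⟨ht1, X, hX, hlt⟩ := ht
    by_cases htL : t ∈ L
    · exact mem_union_right _ (mem_union_left _ htL)
    by_cases htd : t + d ∈ L
    · exact mem_union_right _ (mem_union_right _ (mem_image.2 ⟨t + d, htd, by omega⟩))
    apply mem_union_left
    rw [mem_image]
    refine ⟨(Fin.elim0, t), ?_, rfl⟩
    rw [hT, mem_filter, mem_product, Fintype.mem_piFinset]
    refine ⟨⟨fun i => i.elim0, ht1⟩, X, hX, ?_⟩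
    have h5 : (ε / 2) * N < |Q H (L ∪ {t, t + d}) X| := by
      have : 0 < ε / 2 * N := by positivity
      linarith
    refine lt_of_lt_of_eq h5 ?_
    rw [← Real.norm_eq_abs, ← Complex.norm_real]
    congr 1
    unfold Q
    rw [Complex.ofReal_sum]
    apply sum_congr rfl
    intro n hn
    rw [mem_Icc] at hn
    have hdis : Disjoint L {t, t + d} := by
      rw [disjoint_right]
      intro u hu
      rw [mem_insert, mem_singleton] at hu
      rcases hu with rfl | rfl
      · exact htL
      · exact htd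
    have e1 : ∏ i : Fin H.card, ArithmeticFunction.vonMangoldt (n + ((H.equivFin.symm i : H) : ℕ)) =
        ∏ h ∈ H, ArithmeticFunction.vonMangoldt (n + h) := by
      rw [← prod_coe_sort H (fun h => ArithmeticFunction.vonMangoldt (n + h))]
      exact Equiv.prod_comp H.equivFin.symm (fun h : H => ArithmeticFunction.vonMangoldt (n + (h : ℕ)))
    rw [prod_union hdis, prod_pair (by omega), e1, univ_eq_empty, prod_empty]
    simp only [add_zero, ← add_assoc]
    have e2 : lamC (n + t + d) = ((lam (n + t + d) : ℝ) : ℂ) := by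
      unfold lam lamC
      push_cast
      rfl
    rw [e2]
    push_cast
    ring
  refine (Nat.cast_le.2 (card_le_card hsub)).trans ?_
  refine (Nat.cast_le.2 (card_union_le _ _)).trans ?_
  rw [Nat.cast_add]
  have h5 : ((L ∪ L.image (fun l => l - d)).card : ℝ) ≤ ε / 2 * N := by
    have h6 : (L ∪ L.image (fun l => l - d)).card ≤ 2 * L.card := by
      refine (card_union_le _ _).trans ?_
      have := card_image_le (s := L) (f := fun l => l - d)
      omega
    have h7 : ((L ∪ L.image (fun l => l - d)).card : ℝ) ≤ 2 * L.card := by exact_mod_cast h6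
    have h8 : 2 * (2 * (L.card : ℝ)) / ε ≤ N := h3.trans (by exact_mod_cast (by omega : N₁ ≤ N))
    rw [div_le_iff₀ hε] at h8
    linarith
  have h6 : ((T.image (fun x => x.2)).card : ℝ) ≤ T.card := by exact_mod_cast card_image_le
  exact (add_le_add (h6.trans h4') h5).trans (by linarith)

end Pool.Agent.Results.MP_e6fa8b_nt.MovingLiouvillePairH80
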