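import Mathlib
import Pool.Agent.E8helper68.PJ.Fin4

/-!
# The Hardy-Littlewood-Chowla statement outside a power-saving set of shifts

All shifts of the von Mangoldt function are arbitrary (at most `f` of them, up to `D N`) and all other factors (further
shifts of the Liouville function, for instance) are hidden in an arbitrary weight `b` of modulus at most one, which may
depend on everything but the last Liouville shift `h`. At arbitrarily large scales, all but `N ^ (1 - δ)` of the shifts
`h ≤ D N` of the Liouville function satisfy the bound of the problem, uniformly in `X ≤ N`. Davenport's bound for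
exponential sums over the Liouville function gives `N / (log N) ^ C` exceptional shifts for every `C`; a power saving was
known for bounded weights only (no von Mangoldt function). With the von Mangoldt functions the mean square of the weight
over the integers is larger than the square of its mean by a power of `log N`, while the gain on the major arcs to moduli up
to a power of `N` is only a constant.

Method. The classes of the shifts modulo the product `M` of the primes up to `c log N` are treated one at a time. Inside a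
class the integers `n` at which the product of von Mangoldt functions does not vanish are (up to few) those where a
periodic function `α` of the shifted argument `n + h` equals one, so the Liouville function may be replaced by its product
with `α`. By the Turan-Kubilius inequality for the multiples of the primes from a long range, together with the fact that at
suitable scales no real character to a small modulus is exceptional, the restricted Liouville function has on few major
arcs to moduli up to a power of `N` an energy that is small compared with the density `ρ` of `α`; the small sieve shows that the correlations of the weight for shifts in a class are at most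
a constant times `1 / ρ` times the expected value.
-/

set_option autoImplicit false

namespace Pool.Agent.Results.MP_e6fa8b_nt.PowerSavingJointH68

open Finset

open Classical in
/-- For all `f`, `D` and `ε, ε' > 0` there is `δ > 0` such that for arbitrarily large `R` and all `N` with
`R ^ ε' ≤ N ≤ R`: for every set `A` of at most `f` integers `a ≤ D N` and every weight `b` of modulus at most one, all but
`N ^ (1 - δ)` of the `h ≤ D N` satisfy `|∑ n ≤ X, b n ∏ a ∈ A, Λ(n + a) λ(n + h)| ≤ ε Π(A) N` for all `X ≤ N`, where
`Π(A)` is the product of `1 + 2 / p` over the pairs of distinct elements of `A` and the primes `p` dividing their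
difference (so `Π(A) = 1` for a single shift, and `Π(A)` is a constant for a fixed set `A`). -/
theorem result (f D : ℕ) (ε ε' : ℝ) (hε : 0 < ε) (hε' : 0 < ε') :
    ∃ δ : ℝ, 0 < δ ∧ ∀ R₀ : ℕ, ∃ R : ℕ, R₀ ≤ R ∧ ∀ N : ℕ, (R : ℝ) ^ ε' ≤ N → N ≤ R →
      ∀ A : Finset ℕ, A.card ≤ f → (∀ a ∈ A, a ≤ D * N) → ∀ b : ℕ → ℂ, (∀ n, ‖b n‖ ≤ 1) →
        (((Icc 1 (D * N)).filter (fun h => ∃ X ≤ N,
          ε * (∏ q ∈ A.offDiag, ∏ p ∈ ((q.1 : ℤ) - q.2).natAbs.primeFactors, (1 + 2 / (p : ℝ))) * N <
            ‖∑ n ∈ Icc 1 X, b n * ((∏ a ∈ A, ArithmeticFunction.vonMangoldt (n + a) : ℝ) : ℂ) *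
              (-1 : ℂ) ^ (ArithmeticFunction.cardFactors (n + h))‖)).card : ℝ) ≤ (N : ℝ) ^ (1 - δ) := by
  obtain ⟨δ, hδ, h⟩ := Pool.Agent.E8helper68.PJ.joint_save (f + 1) (D + 1) (by omega) (by omega) (min ε 1)
    (lt_min hε one_pos) (min_le_right _ _) ε' hε'
  refine ⟨δ, hδ, fun R₀ => ?_⟩
  obtain ⟨R, hR, h1⟩ := h R₀
  refine ⟨R, hR, fun N hN1 hN2 A hA hsz b hb => ?_⟩
  have hDD : D * N ≤ (D + 1) * N := Nat.mul_le_mul_right N (by omega)
  refine le_trans ?_ (h1 N hN1 hN2 A (by omega) (fun a ha => (hsz a ha).trans hDD) b hb)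
  apply Nat.cast_le.2
  apply card_le_card
  intro h hh
  rw [mem_filter, mem_Icc] at hh ⊢
  obtain ⟨h2, X, hX, hXb⟩ := hh
  refine ⟨⟨h2.1, h2.2.trans hDD⟩, X, hX, ?_⟩
  have e1 : Pool.Agent.E8helper68.PJ.PiA (Pool.Agent.E8helper68.PJ.zs A) =
      ∏ q ∈ A.offDiag, ∏ p ∈ ((q.1 : ℤ) - q.2).natAbs.primeFactors, (1 + 2 / (p : ℝ)) := by
    unfold Pool.Agent.E8helper68.PJ.PiA
    symm
    refine prod_nbij (fun q => ((q.1 : ℤ), (q.2 : ℤ))) ?_ ?_ ?_ ?_
    · intro q hq
      rw [mem_offDiag] at hq ⊢
      refine ⟨Pool.Agent.E8helper68.PJ.mem_zs.2 ⟨q.1, hq.1, rfl⟩,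
        Pool.Agent.E8helper68.PJ.mem_zs.2 ⟨q.2, hq.2.1, rfl⟩, ?_⟩
      intro h3
      apply hq.2.2
      simpa using h3
    · intro q _ q' _ h3
      simp only [Prod.mk.injEq, Nat.cast_inj] at h3
      exact Prod.ext h3.1 h3.2
    · intro q hq
      rw [mem_coe, mem_offDiag] at hq
      obtain ⟨a, ha, ha'⟩ := Pool.Agent.E8helper68.PJ.mem_zs.1 hq.1
      obtain ⟨c, hc, hc'⟩ := Pool.Agent.E8helper68.PJ.mem_zs.1 hq.2.1
      refine ⟨(a, c), ?_, Prod.ext ha' hc'⟩
      rw [mem_coe, mem_offDiag]
      refine ⟨ha, hc, ?_⟩
      intro h3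
      apply hq.2.2
      rw [← ha', ← hc']
      have h4 : a = c := h3
      rw [h4]
    · intro q _
      rfl
  have e2 : Pool.Agent.E8helper68.PJ.SS A b X h =
      ∑ n ∈ Icc 1 X, b n * ((∏ a ∈ A, ArithmeticFunction.vonMangoldt (n + a) : ℝ) : ℂ) *
        (-1 : ℂ) ^ (ArithmeticFunction.cardFactors (n + h)) := by
    unfold Pool.Agent.E8helper68.PJ.SS
    apply sum_congr rfl
    intro n hn
    rw [mem_Icc] at hn
    unfold Pool.Agent.E8helper68.PJ.li Pool.Agent.H373R2.T7.liR
    rw [if_neg (by omega), Complex.ofReal_prod]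
    simp only [Pool.Agent.E8helper68.PJ.Lz_nat]
  rw [e1, e2]
  refine lt_of_le_of_lt ?_ hXb
  have h3 : (0 : ℝ) ≤ ∏ q ∈ A.offDiag, ∏ p ∈ ((q.1 : ℤ) - q.2).natAbs.primeFactors, (1 + 2 / (p : ℝ)) :=
    prod_nonneg fun q _ => prod_nonneg fun p _ => by positivity
  exact mul_le_mul_of_nonneg_right (mul_le_mul_of_nonneg_right (min_le_left _ _) h3) (Nat.cast_nonneg N)

end Pool.Agent.Results.MP_e6fa8b_nt.PowerSavingJointH68
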