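import Mathlib
import Pool.Agent.E8helper16.SL.I4

/-!
# The Hardy-Littlewood-Chowla statement on average over windows shorter than `(log N) ^ f`

`f ≥ 1` shifts of the von Mangoldt function are held fixed, one shift `B + h` of the Liouville function moves in a window
of length `H`; all other factors (further shifts of the Liouville function, for instance) are hidden in an arbitrary weight
`b` of modulus at most one. The integers `n` with all `n + a i` prime have density `(log N) ^ (-f)`, so
`H = (log N) ^ f` is the natural limit of the mean square method; the theorem goes below it, to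
`H = (log N) ^ (f - η)`, where `η > 0` depends on `ε` (and on `f`, `D`) only.

Method. By the Turan-Kubilius inequality in the window, the sum over the window is replaced by the sums over the
multiples of the primes `p` of a set of primes between small powers of `log N`, and the Liouville function at `p m` is
minus the Liouville function at `m`. The mean square over `n` and over the primes of a dyadic block then
involves the weights along the forms `m ↦ p m - h`, of which there are about `H q / log q` for the primes `p ~ q` instead of
`H`. The weight is replaced by a sieve weight; the covariances along different forms are computed with the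
fundamental lemma of the sieve, and the remaining average of the Liouville function is estimated with the
theorem of Matomäki, Radziwiłł and Tao (starting files).
-/

set_option autoImplicit false

namespace Pool.Agent.Results.MP_e6fa8b_nt.ShortWindowsH16

open Finset

/-- Let `f ≥ 1`, `D` and `ε > 0`. There are `η > 0` and `N₀` such that for `N ≥ N₀`, `(log N) ^ (f - η) ≤ H ≤ N`, distinct
`a 1, ..., a f ≤ N` with differences at most `D`, `B ≤ N`, a weight `b` of modulus at most one and arbitrary
`X 1, ..., X H ≤ N`:
`∑ h ≤ H, |∑ n ≤ X h, b n ∏ i, Λ(n + a i) λ(n + B + h)| ≤ ε H N`.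
So the sums of the problem up to `X` are `o(N)`, uniformly in `X ≤ N`, for almost all shifts `B + h` in the window. -/
theorem result (f : ℕ) (hf : 1 ≤ f) (D : ℕ) (ε : ℝ) (hε : 0 < ε) :
    ∃ η : ℝ, 0 < η ∧ ∃ N₀ : ℕ, ∀ N H : ℕ, N₀ ≤ N → Real.log N ^ ((f : ℝ) - η) ≤ H → H ≤ N →
      ∀ a : Fin f → ℕ, Function.Injective a → (∀ i, a i ≤ N) → (∀ i l, a i ≤ a l + D) → ∀ B : ℕ, B ≤ N →
        ∀ b : ℕ → ℂ, (∀ n, ‖b n‖ ≤ 1) → ∀ X : ℕ → ℕ, (∀ h, X h ≤ N) →
          ∑ h ∈ Icc 1 H, ‖∑ n ∈ Icc 1 (X h), b n * ((∏ i, ArithmeticFunction.vonMangoldt (n + a i) : ℝ) : ℂ) *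
              (-1 : ℂ) ^ (ArithmeticFunction.cardFactors (n + B + h))‖ ≤ ε * H * N := by
  obtain ⟨η, hη, N₁, h1⟩ := Pool.Agent.E8helper16.SL.finalSum f hf D ε hε
  refine ⟨η, hη, N₁, fun N H hN hH1 hH2 a ha haN haD B hB b hb X hX => ?_⟩
  refine le_trans (le_of_eq ?_) (h1 N hN H hH1 hH2 a ha haN haD B hB b hb X hX)
  apply sum_congr rfl
  intro h _
  unfold Pool.Agent.E8helper16.SL.SX
  congr 1
  apply sum_congr rfl
  intro n hn
  rw [mem_Icc] at hn
  rw [Pool.Agent.E8helper16.SL.lz_nat _ (by omega), add_assoc]

end Pool.Agent.Results.MP_e6fa8b_nt.ShortWindowsH16
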